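import Pool.Agent.Q120.MdmBase
import Pool.Agent.Q120.MdmUpper

/-!
# Two-colour Ramsey numbers for degree-monotone paths: `M_2(m) = (m-1)^2 + 1` for all `m ≥ 7`

Definitions (in `Pool.Agent.Q120.MdmDefs`):
* `dg G v` is the number of neighbours of `v` in `G`;
* `HasMP G m`: `G` has a degree-monotone path of order `m`;
* `Forcing m`: the set of `M` such that for all `n ≥ M` every 2-colouring of the edges of `K_n`
  has a monochromatic degree-monotone path of order `m`;
* `M2 m = sInf (Forcing m)`.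
-/

namespace Pool.Agent.Results.MP_a6acde_co.ExactValue

open SimpleGraph Pool.Agent.Q120.Mdm

/-- Good colourings on exactly `k^2` vertices exist for all `k ≥ 6`. -/
theorem exists_good (k : ℕ) (hk : 6 ≤ k) :
    ∃ (V : Type) (_ : Fintype V) (G : SimpleGraph V), Fintype.card V = k ^ 2 ∧ Good G k := by
  induction k, hk using Nat.le_induction with
  | base => exact ⟨Fin 36, inferInstance, G0, by simp, base_good⟩
  | succ k hk ih =>
    obtain ⟨V, hV, G, hc, hG⟩ := ih
    refine ⟨V ⊕ (Fin (k + 1) ⊕ Fin k), inferInstance, ext G k, ?_, good_ext hG⟩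
    rw [card_ext, hc]
    ring

theorem lower (m : ℕ) (hm : 7 ≤ m) (M : ℕ) (hM : M ∈ Forcing m) : (m - 1) ^ 2 + 1 ≤ M := by
  classical
  by_contra hlt
  push Not at hlt
  obtain ⟨V, hV, G, hc, hG⟩ := exists_good (m - 1) (by omega)
  let e : Fin ((m - 1) ^ 2) ≃ V := (Fintype.equivFinOfCardEq hc).symm
  obtain ⟨j, hj⟩ := hM ((m - 1) ^ 2) (by omega) (G.comap e).toTopEdgeLabeling
  have key : HasMP G m ∨ HasMP Gᶜ m := by
    match j, hj with
    | 0, hj =>
      right
      rw [toTopEdgeLabeling_labelGraph_compl] at hj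
      apply hasMP_of_equiv Gᶜ e
      have : (G.comap e)ᶜ = Gᶜ.comap e := by
        ext x y
        simp [compl_adj]
      rwa [this] at hj
    | 1, hj =>
      left
      rw [toTopEdgeLabeling_labelGraph] at hj
      exact hasMP_of_equiv G e m hj
  rcases key with h | h
  · have := hG.no1 m h
    omega
  · have := hG.no2 m h
    omega

theorem upper_mem (m : ℕ) (hm : 1 ≤ m) : (m - 1) ^ 2 + 1 ∈ Forcing m := by
  classical
  intro n hn C
  have h := upper m n hm hn (C.labelGraph 1)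
  rcases h with h | h
  · exact ⟨1, h⟩
  · refine ⟨0, ?_⟩
    have e : C.labelGraph 0 = (C.labelGraph 1)ᶜ := by
      conv_lhs => rw [← TopEdgeLabeling.labelGraph_toTopEdgeLabeling C]
      rw [toTopEdgeLabeling_labelGraph_compl]
    rw [e]
    exact h

/-- `M_2(m)` is well defined for all `m ≥ 1`, `M_2(m) = (m-1)^2 + 1` for all `m ≥ 7`, and so the
statement of Q1 is false. -/
theorem result :
    (∀ m : ℕ, 1 ≤ m → IsLeast (Forcing m) (M2 m)) ∧
    (∀ m : ℕ, 7 ≤ m → M2 m = (m - 1) ^ 2 + 1) ∧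
    ¬ (∀ C : ℕ, ∃ m₀ : ℕ, ∀ m : ℕ, m₀ ≤ m → M2 m + C ≤ (m - 1) ^ 2) := by
  have h1 : ∀ m : ℕ, 1 ≤ m → IsLeast (Forcing m) (M2 m) := by
    intro m hm
    exact ⟨Nat.sInf_mem ⟨_, upper_mem m hm⟩, fun M hM => Nat.sInf_le hM⟩
  have h2 : ∀ m : ℕ, 7 ≤ m → M2 m = (m - 1) ^ 2 + 1 := by
    intro m hm
    apply le_antisymm
    · exact (h1 m (by omega)).2 (upper_mem m (by omega))
    · exact lower m hm _ (h1 m (by omega)).1
  refine ⟨h1, h2, ?_⟩
  intro h
  obtain ⟨m₀, hm₀⟩ := h 0
  have := hm₀ (m₀ + 7) (by omega)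
  rw [h2 _ (by omega)] at this
  omega

end Pool.Agent.Results.MP_a6acde_co.ExactValue
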